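import Pool.Agent.W601.RP.Stm2

/-! Supports of null sequences do not meet an infinite antichain. -/

set_option autoImplicit false
open scoped Classical
open Filter Topology Pool.Agent.W601.RP

namespace Pool.Agent.W392.RP

theorem N_two_le (t : ℕ) : 2 ≤ N t := by
  unfold N
  have := Nat.factorial_pos (t + 1)
  omega

/-- each natural number above `u 0` is in exactly one interval -/
theorem exists_block (u : ℕ → ℕ) (hu : StrictMono u) (t : ℕ) (ht : u 0 ≤ t) :
    ∃ l, u l ≤ t ∧ t < u (l + 1) := by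
  have hex : ∃ n, t < u n := ⟨t + 1, lt_of_lt_of_le (Nat.lt_succ_self t) (hu.le_apply)⟩
  have h1 := Nat.find_spec hex
  have h0 : Nat.find hex ≠ 0 := by
    intro h
    rw [h] at h1
    omega
  obtain ⟨l, hl⟩ := Nat.exists_eq_succ_of_ne_zero h0
  refine ⟨l, ?_, ?_⟩
  · by_contra hc
    have := Nat.find_min' hex (not_le.mp hc)
    omega
  · rw [hl] at h1
    exact h1

/-- bound for the weights -/
theorem sum_bound (nu' : ℕ → ℝ) (hn : ∀ t, 0 ≤ nu' t) (k : ℕ → (ℕ →₀ ℤ)) (u : ℕ → ℕ)
    (hu : StrictMono u) (hk : ∀ l, ∀ t ∈ (k l).support, t < u (l + 1)) (L : ℕ)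
    (hL : ∀ l, (k l).support.card ≤ L)
    (hs : ∀ l t, u l ≤ t → nu' t ≤ (1 / 2 : ℝ) ^ (l + 2) / (L + 1)) (n : ℕ) :
    ∑ t ∈ Finset.range n, (⋃ l, {t | t ∈ (k l).support ∧ u l ≤ t}).indicator nu' t ≤ 1 / 2 := by
  set U : Set ℕ := ⋃ l, {t | t ∈ (k l).support ∧ u l ≤ t} with hU
  have hnn : ∀ t, 0 ≤ U.indicator nu' t := fun t => Set.indicator_nonneg (fun t _ => hn t) t
  have key : ∀ n, ∑ t ∈ Finset.range (u n), U.indicator nu' t ≤ 1 / 2 - (1 / 2 : ℝ) ^ (n + 1) := by
    intro n
    induction n with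
    | zero =>
      rw [Finset.sum_eq_zero]
      · norm_num
      · intro t ht
        rw [Set.indicator_of_notMem]
        intro hm
        rw [hU, Set.mem_iUnion] at hm
        obtain ⟨l, _, h2⟩ := hm
        have h3 : u 0 ≤ u l := hu.monotone (Nat.zero_le l)
        have h4 := Finset.mem_range.mp ht
        omega
    | succ n ih =>
      have hle : u n ≤ u (n + 1) := hu.monotone (Nat.le_succ n)
      rw [← Finset.sum_range_add_sum_Ico _ hle]
      have h2 : ∑ t ∈ Finset.Ico (u n) (u (n + 1)), U.indicator nu' t ≤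
          ∑ t ∈ (k n).support.filter (fun t => u n ≤ t), nu' t := by
        have h3 : ∑ t ∈ Finset.Ico (u n) (u (n + 1)), U.indicator nu' t =
            ∑ t ∈ (Finset.Ico (u n) (u (n + 1))).filter
              (fun t => t ∈ (k n).support ∧ u n ≤ t), nu' t := by
          rw [Finset.sum_filter]
          refine Finset.sum_congr rfl fun t ht => ?_
          rw [Finset.mem_Ico] at ht
          by_cases hc : t ∈ (k n).support ∧ u n ≤ t
          · rw [if_pos hc, Set.indicator_of_mem]
            rw [hU, Set.mem_iUnion]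
            exact ⟨n, hc⟩
          · rw [if_neg hc, Set.indicator_of_notMem]
            intro hm
            rw [hU, Set.mem_iUnion] at hm
            obtain ⟨l, h4, h5⟩ := hm
            have h6 := hk l t h4
            rcases lt_trichotomy l n with h | h | h
            · have h7 : u (l + 1) ≤ u n := hu.monotone h
              omega
            · subst h
              exact hc ⟨h4, h5⟩
            · have h7 : u (n + 1) ≤ u l := hu.monotone h
              omega
        rw [h3]
        refine Finset.sum_le_sum_of_subset_of_nonneg ?_ (fun t _ _ => hn t)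
        intro t ht
        rw [Finset.mem_filter] at ht ⊢
        exact ⟨ht.2.1, ht.2.2⟩
      have h4 : ∑ t ∈ (k n).support.filter (fun t => u n ≤ t), nu' t ≤ (1 / 2 : ℝ) ^ (n + 2) := by
        have h5 : ∑ t ∈ (k n).support.filter (fun t => u n ≤ t), nu' t ≤
            ((k n).support.filter (fun t => u n ≤ t)).card • ((1 / 2 : ℝ) ^ (n + 2) / (L + 1)) := by
          refine Finset.sum_le_card_nsmul _ _ _ fun t ht => ?_
          exact hs n t (Finset.mem_filter.mp ht).2
        refine h5.trans ?_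
        rw [nsmul_eq_mul]
        have h6 : (((k n).support.filter (fun t => u n ≤ t)).card : ℝ) ≤ (L : ℝ) + 1 := by
          have h7 := (Finset.card_filter_le (k n).support (fun t => u n ≤ t)).trans (hL n)
          have h8 : (((k n).support.filter (fun t => u n ≤ t)).card : ℝ) ≤ (L : ℝ) := by
            exact_mod_cast h7
          linarith
        have h9 : (0 : ℝ) < (L : ℝ) + 1 := by positivity
        have h10 : (0 : ℝ) ≤ (1 / 2 : ℝ) ^ (n + 2) / (L + 1) := by positivity
        calc _ ≤ ((L : ℝ) + 1) * ((1 / 2 : ℝ) ^ (n + 2) / (L + 1)) :=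
              mul_le_mul_of_nonneg_right h6 h10
          _ = (1 / 2 : ℝ) ^ (n + 2) := by field_simp
      have h11 : (1 / 2 : ℝ) ^ (n + 1) = 2 * (1 / 2 : ℝ) ^ (n + 2) := by
        rw [pow_succ (1 / 2 : ℝ) (n + 1)]; ring
      have h12 : (1 / 2 : ℝ) ^ (n + 1 + 1) = (1 / 2 : ℝ) ^ (n + 2) := rfl
      rw [h12]
      linarith
  have hle : Finset.range n ⊆ Finset.range (u n) := Finset.range_mono hu.le_apply
  calc _ ≤ ∑ t ∈ Finset.range (u n), U.indicator nu' t :=
        Finset.sum_le_sum_of_subset_of_nonneg hle (fun t _ _ => hnn t)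
    _ ≤ 1 / 2 - (1 / 2 : ℝ) ^ (n + 1) := key n
    _ ≤ 1 / 2 := by
      have : (0 : ℝ) ≤ (1 / 2 : ℝ) ^ (n + 1) := by positivity
      linarith

theorem ant : S_GH → S_NU0 → S_CIR → S_ANT := by
  intro hGH hNU hCIR k hR hNS hL0 e he hac hes
  obtain ⟨L, hL⟩ := hL0
  obtain ⟨hnu1, -, hnu0⟩ := hNU
  obtain ⟨-, -, -, hcir4, -⟩ := hCIR
  -- thresholds
  have hthr : ∀ n : ℕ, ∃ b : ℕ, ∀ t, b ≤ t → nu t ≤ (1 / 2 : ℝ) ^ (n + 2) / (L + 1) := by
    intro n
    have hpos : (0 : ℝ) < (1 / 2 : ℝ) ^ (n + 2) / (L + 1) := by positivity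
    obtain ⟨b, hb⟩ := (hnu1 _ hpos).bddAbove
    refine ⟨b + 1, fun t ht => ?_⟩
    by_contra hc
    have := hb (show t ∈ {t | (1 / 2 : ℝ) ^ (n + 2) / (L + 1) ≤ nu t} from (not_le.mp hc).le)
    omega
  choose thr hthr using hthr
  have het : Tendsto e atTop atTop := he.nat_tendsto_atTop
  have step : ∀ (n i : ℕ), ∃ i', i < i' ∧ thr n ≤ e i' ∧ ∀ t ∈ (k i).support, t < e i' := by
    intro n i
    obtain ⟨i', h1, h2, h3⟩ := ((eventually_gt_atTop i).and
      ((het.eventually_ge_atTop (thr n)).and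
        (het.eventually_ge_atTop ((k i).support.sup id + 1)))).exists
    refine ⟨i', h1, h2, fun t ht => ?_⟩
    have : t ≤ (k i).support.sup id := Finset.le_sup (f := id) ht
    omega
  choose S hS1 hS2 hS3 using step
  obtain ⟨ii, hi0, his⟩ : ∃ ii : ℕ → ℕ, ii 0 = S 0 0 ∧ ∀ n, ii (n + 1) = S (n + 1) (ii n) :=
    ⟨fun n => Nat.rec (S 0 0) (fun n i => S (n + 1) i) n, rfl, fun n => rfl⟩
  have hii : StrictMono ii := strictMono_nat_of_lt_succ fun n => by
    rw [his]; exact hS1 _ _
  have hsup : ∀ l, ∀ t ∈ (k (ii l)).support, t < e (ii (l + 1)) := by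
    intro l t ht
    rw [his]; exact hS3 _ _ t ht
  have hu : StrictMono (fun l => e (ii l)) := strictMono_nat_of_lt_succ fun n =>
    hsup n _ (hes (ii n))
  have hth : ∀ l t, e (ii l) ≤ t → nu t ≤ (1 / 2 : ℝ) ^ (l + 2) / (L + 1) := by
    intro l t ht
    refine hthr l t (le_trans ?_ ht)
    cases l with
    | zero => rw [hi0]; exact hS2 _ _
    | succ n => rw [his]; exact hS2 _ _
  have hsb := sum_bound nu hnu0 (fun l => k (ii l)) (fun l => e (ii l)) hu hsup L
    (fun l => hL (ii l)) hth
  have hnn : ∀ t, 0 ≤ (⋃ l, {t | t ∈ (k (ii l)).support ∧ e (ii l) ≤ t}).indicator nu t :=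
    fun t => Set.indicator_nonneg (fun t _ => hnu0 t) t
  have hsum := summable_of_sum_range_le hnn hsb
  have htsum := Real.tsum_le_of_sum_range_le hnn hsb
  -- values
  have ha : ∀ l, ∃ a : ℕ, a < N (e (ii l)) ∧
      1 / 4 ≤ ‖(k (ii l) (e (ii l))) • ((((a : ℝ) / (N (e (ii l)) : ℝ)) : ℝ) : TT)‖ := by
    intro l
    obtain ⟨a, h1, -, h3⟩ := hcir4 (N (e (ii l))) (k (ii l) (e (ii l))) (N_two_le _)
      (Finsupp.mem_support_iff.mp (hes (ii l))) (hR (ii l) (e (ii l))).1 (hR (ii l) (e (ii l))).2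
    exact ⟨a, h1, h3⟩
  choose a ha1 ha2 using ha
  obtain ⟨q, hq, hq2⟩ := hGH (fun l => k (ii l)) (fun l => e (ii l)) hu hsup hsum
    (lt_of_le_of_lt htsum (by norm_num))
    (fun l => {fun _ => 0, fun t => if t = e (ii l) then a l else 0}) (by
      intro l f hf t
      rcases hf with rfl | hf
      · exact ⟨lt_of_lt_of_le (by norm_num) (N_two_le t), fun h => absurd rfl h⟩
      · rw [Set.mem_singleton_iff] at hf
        subst hf
        by_cases h : t = e (ii l)
        · subst h
          simp only [if_true]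
          exact ⟨ha1 l, fun _ => ⟨hes (ii l), le_refl _⟩⟩
        · simp only [if_neg h]
          exact ⟨lt_of_lt_of_le (by norm_num) (N_two_le t), fun h => absurd rfl h⟩) (by
      intro l r
      have hz : ∑ t ∈ (k (ii l)).support.filter (fun t => e (ii l) ≤ t), (k (ii l) t) •
          (((((if t = e (ii l) then a l else 0 : ℕ) : ℝ) / (N t : ℝ)) : ℝ) : TT) =
          (k (ii l) (e (ii l))) • ((((a l : ℝ) / (N (e (ii l)) : ℝ)) : ℝ) : TT) := by
        rw [Finset.sum_eq_single (e (ii l))]
        · simp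
        · intro t _ hne
          rw [if_neg hne]
          simp
        · intro hn
          exact absurd (Finset.mem_filter.mpr ⟨hes (ii l), le_refl _⟩) hn
      by_cases hr : 1 / 8 ≤ ‖r‖
      · refine ⟨fun _ => 0, Or.inl rfl, ?_⟩
        simpa using hr
      · refine ⟨fun t => if t = e (ii l) then a l else 0, Or.inr rfl, ?_⟩
        rw [hz]
        by_contra hc
        have h1 := ha2 l
        have h2 : ‖(k (ii l) (e (ii l))) • ((((a l : ℝ) / (N (e (ii l)) : ℝ)) : ℝ) : TT)‖ ≤
            ‖r + (k (ii l) (e (ii l))) • ((((a l : ℝ) / (N (e (ii l)) : ℝ)) : ℝ) : TT)‖ + ‖r‖ := by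
          have := norm_sub_le (r + (k (ii l) (e (ii l))) •
            ((((a l : ℝ) / (N (e (ii l)) : ℝ)) : ℝ) : TT)) r
          rwa [add_sub_cancel_left] at this
        push Not at hr hc
        linarith) (by
      intro g hg0 hg A hA η hη
      refine Set.Subsingleton.finite ?_
      have hgr : ∀ t, η ≤ ‖((((g t : ℝ) / (N t : ℝ)) : ℝ) : TT)‖ → ∃ l, t = e (ii l) := by
        intro t ht
        have hgt : g t ≠ 0 := by
          intro h0
          rw [h0] at ht
          simp at ht
          linarith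
        have ht0 : e (ii 0) ≤ t := by
          by_contra hc
          exact hgt (hg0 t (not_le.mp hc))
        obtain ⟨l, h1, h2⟩ := exists_block _ hu t ht0
        obtain ⟨f, hf, hf2⟩ := hg l
        have h3 := hf2 t h1 h2
        refine ⟨l, ?_⟩
        by_contra hne
        apply hgt
        rw [h3]
        rcases hf with rfl | hf
        · rfl
        · rw [Set.mem_singleton_iff] at hf
          subst hf
          simp only [if_neg hne]
      intro t ht t' ht'
      by_contra hne
      obtain ⟨l, hl⟩ := hgr t ht.2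
      obtain ⟨l', hl'⟩ := hgr t' ht'.2
      have hcmp := hA t ht.1 t' ht'.1 hne
      rw [hl, hl'] at hcmp
      refine hac _ _ ?_ hcmp
      intro h
      apply hne
      rw [hl, hl', h])
  have hxH : x q ∈ H := AddSubgroup.subset_closure ⟨q, hq, rfl⟩
  have hlim := ((hNS (x q) hxH).comp hii.tendsto_atTop).norm
  rw [norm_zero] at hlim
  have hev := hlim.eventually_lt_const (show (0 : ℝ) < 1 / 8 by norm_num)
  obtain ⟨l, hl⟩ := hev.exists
  have := hq2 l
  simp only [Function.comp_apply] at hl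
  linarith

end Pool.Agent.W392.RP
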